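import Pool.Agent.helper91.SI.Spec5

set_option autoImplicit false

namespace Pool.Agent.helper91.SI

open Pool.Agent.helper20.IG (IsIndepDom IsISet iGraph)

theorem CNA_noC4 {V W : Type} (G : SimpleGraph V) (H : SimpleGraph W) (f : V → W) (hf : Function.Injective f)
    (ha : ∀ a b, G.Adj a b → H.Adj (f a) (f b)) (h : NoC4 H) : NoC4 G := by
  intro a b c d hab hbc hcd hda hac hbd
  exact h (f a) (f b) (f c) (f d) (ha _ _ hab) (ha _ _ hbc) (ha _ _ hcd) (ha _ _ hda)
    (fun h => hac (hf h)) (fun h => hbd (hf h))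

theorem CNA_noTri {V W : Type} (G : SimpleGraph V) (H : SimpleGraph W) (f : V → W)
    (ha : ∀ a b, G.Adj a b → H.Adj (f a) (f b)) (h : NoTri H) : NoTri G := by
  intro a b c hab hbc hac
  exact h (f a) (f b) (f c) (ha _ _ hab) (ha _ _ hbc) (ha _ _ hac)

theorem CNA_noC6 {V W : Type} (G : SimpleGraph V) (H : SimpleGraph W) (f : V → W) (hf : Function.Injective f)
    (ha : ∀ a b, G.Adj a b → H.Adj (f a) (f b)) (h : NoC6 H) : NoC6 G := by
  intro a b c d e g hn hab hbc hcd hde heg hga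
  have hn' := hn.map hf
  exact h (f a) (f b) (f c) (f d) (f e) (f g) hn' (ha _ _ hab) (ha _ _ hbc) (ha _ _ hcd) (ha _ _ hde) (ha _ _ heg)
    (ha _ _ hga)

theorem CNA_three {V W : Type} (G : SimpleGraph V) (H : SimpleGraph W) (f : V → W) (hf : Function.Injective f)
    (ha : ∀ a b, G.Adj a b → H.Adj (f a) (f b)) (h : ¬ Three H) : ¬ Three G := by
  rintro ⟨x, a, b, c, h1, h2, h3, h4, h5, h6⟩
  exact h ⟨f x, f a, f b, f c, ha _ _ h1, ha _ _ h2, ha _ _ h3, fun h => h4 (hf h), fun h => h5 (hf h),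
    fun h => h6 (hf h)⟩

theorem CNA_clo {V : Type} (G : SimpleGraph V) (s : V) : Clo G {z | G.Reachable s z} := by
  intro u v huv
  simp only [Set.mem_setOf_eq]
  exact ⟨fun h => h.trans huv.reachable, fun h => h.trans huv.symm.reachable⟩

theorem CNA_conn {V : Type} (G : SimpleGraph V) (s : V) : (G.induce {z | G.Reachable s z}).Connected := by
  have hs : ∀ z : {z | G.Reachable s z}, (G.induce {z | G.Reachable s z}).Reachable ⟨s, SimpleGraph.Reachable.refl s⟩ z := by
    rintro ⟨z, hz⟩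
    have hz' : G.Reachable s z := hz
    obtain ⟨p⟩ := hz'
    have hp : ∀ x ∈ p.support, x ∈ {z | G.Reachable s z} := by
      intro x hx
      classical
      exact ⟨p.takeUntil x hx⟩
    exact ⟨p.induce _ hp⟩
  haveI : Nonempty {z | G.Reachable s z} := ⟨⟨s, SimpleGraph.Reachable.refl s⟩⟩
  exact ⟨fun a b => (hs a).symm.trans (hs b)⟩

theorem CNA (hIAD : IAD_stmt) (hEMB : EMB_stmt) (hCLS : CLS_stmt) (hSZN : SZN_stmt) : CNA_stmt := by
  intro V _ _ G hT h4 h6 h3 e X s v hsl
  have hI4 : NoC4 (iGraph G) := CNA_noC4 _ _ e e.injective (fun a b hab => e.map_adj_iff.2 hab) h4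
  have hI3 : ¬ Three (iGraph G) := CNA_three _ _ e e.injective (fun a b hab => e.map_adj_iff.2 hab) h3
  have hclo := CNA_clo G s
  have hconn := CNA_conn G s
  set K : Set V := {z | G.Reachable s z} with hK
  have hsK : s ∈ K := SimpleGraph.Reachable.refl s
  have hsv : G.Adj s v := hsl.2.2.2.1
  have hvK : v ∈ K := hsv.reachable
  have hinj : Function.Injective (Subtype.val : K → V) := Subtype.val_injective
  have hadj : ∀ a b : K, (G.induce K).Adj a b → G.Adj a.val b.val := fun a b hab => hab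
  have hHT : NoTri (G.induce K) := CNA_noTri _ _ _ hadj hT
  have hH4 : NoC4 (G.induce K) := CNA_noC4 _ _ _ hinj hadj h4
  have hH6 : NoC6 (G.induce K) := CNA_noC6 _ _ _ hinj hadj h6
  have hH3 : ¬ Three (G.induce K) := CNA_three _ _ _ hinj hadj h3
  -- the class of X
  let XI : {S : Finset V // IsISet G S} := ⟨X, hsl.1⟩
  let XJ : {S : Finset V // IsISet G S} := ⟨insert v (X.erase s), hsl.2.2.2.2⟩
  have hXX : (iGraph G).Adj XI XJ := (hIAD V G XI XJ).2 ⟨s, v, hsl, rfl⟩
  obtain ⟨f⟩ := hEMB V G K XI hclo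
  have hXID : XI ∈ {Y : {S : Finset V // IsISet G S} | ∀ z, z ∉ K → (z ∈ Y.1 ↔ z ∈ XI.1)} := fun z _ => Iff.rfl
  have hXJD : XJ ∈ {Y : {S : Finset V // IsISet G S} | ∀ z, z ∉ K → (z ∈ Y.1 ↔ z ∈ XI.1)} := by
    intro z hz
    have hzv : z ≠ v := fun h => hz (h ▸ hvK)
    have hzs : z ≠ s := fun h => hz (h ▸ hsK)
    change z ∈ insert v (X.erase s) ↔ z ∈ X
    rw [Finset.mem_insert, Finset.mem_erase]
    constructor
    · rintro (h | h)
      · exact absurd h hzv
      · exact h.2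
    · intro h
      exact Or.inr ⟨hzs, h⟩
  have hfadj : ∀ a b, (iGraph (G.induce K)).Adj a b → (iGraph G).Adj (f a).val (f b).val :=
    fun a b hab => f.map_adj_iff.2 hab
  have hfinj : Function.Injective (fun a => (f a).val) := fun a b hab => f.injective (Subtype.ext hab)
  have hIH4 : NoC4 (iGraph (G.induce K)) := CNA_noC4 _ _ _ hfinj hfadj hI4
  have hIH3 : ¬ Three (iGraph (G.induce K)) := CNA_three _ _ _ hfinj hfadj hI3
  have hedge : ∃ A B, (iGraph (G.induce K)).Adj A B := by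
    refine ⟨f.symm ⟨XI, hXID⟩, f.symm ⟨XJ, hXJD⟩, ?_⟩
    rw [f.symm.map_adj_iff]
    exact hXX
  haveI : Fintype K := Fintype.ofFinite K
  have hcard := hSZN K (G.induce K) hconn hHT hH4 hH6 hH3 hIH4 hIH3 hedge
  -- the class of Y0
  obtain ⟨f0⟩ := hEMB V G K (e.symm s) hclo
  set D : Set {S : Finset V // IsISet G S} := {Y | ∀ z, z ∉ K → (z ∈ Y.1 ↔ z ∈ (e.symm s).1)} with hD
  have hcardD : D.ncard ≤ K.ncard := by
    have h1 : Nat.card {S // IsISet (G.induce K) S} = Nat.card D := Nat.card_congr f0.toEquiv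
    have h2 : Nat.card D = D.ncard := Nat.card_coe_set_eq D
    have h3 : Nat.card K = K.ncard := Nat.card_coe_set_eq K
    omega
  let C : Set {S : Finset V // IsISet G S} := {Y | e Y ∈ K}
  have hCD : C ⊆ D := by
    intro Y hY
    have h1 : G.Reachable s (e Y) := hY
    have h2 := h1.map e.symm.toHom
    have h3 : (iGraph G).Reachable (e.symm s) Y := by
      have h4 : e.symm.toHom (e Y) = Y := e.symm_apply_apply Y
      rw [h4] at h2
      exact h2
    intro z hz
    exact (hCLS V G K X s v hT hI4 hclo hsl hsK _ _ h3 z hz).symm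
  have hcardC : C.ncard = K.ncard := by
    have h1 : Nat.card C = Nat.card K :=
      Nat.card_congr (e.toEquiv.subtypeEquiv (fun Y => Iff.rfl))
    rw [Nat.card_coe_set_eq, Nat.card_coe_set_eq] at h1
    exact h1
  have hCeq : C = D := Set.eq_of_subset_of_ncard_le hCD (by omega) (Set.toFinite D)
  have hmem : ∀ Y, Y ∈ D ↔ e Y ∈ K := by
    intro Y
    rw [← hCeq]
    rfl
  refine ⟨f0.trans ?_⟩
  exact
    { toEquiv := e.toEquiv.subtypeEquiv (fun Y => hmem Y)
      map_rel_iff' := fun {a b} => e.map_adj_iff }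

end Pool.Agent.helper91.SI
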